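import Pool.Agent.Lib.MP_57cceb_lc.Bounds
import Pool.Agent.Lib.MP_57cceb_lc.Germ

/-!
# MP_9fc97b_lc: what a singular ultrafilter number must look like

`Ch(U)` (`character`) and `IsUniform` are as in `Pool.Agent.Lib.MP_57cceb_lc.Defs`.
-/

universe u

namespace Pool.Agent.Results.MP_9fc97b_lc.SingularBound

open Cardinal Set Filter Order Pool.Agent.Lib.MP_57cceb_lc
open scoped Ordinal

/-- The ultrafilter number `𝔲_λ` for `λ = #X`: the least character of a uniform ultrafilter
over `X`. -/
noncomputable def ultrafilterNumber (X : Type u) : Cardinal.{u} :=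
  sInf {c : Cardinal.{u} | ∃ U : Ultrafilter X, IsUniform U ∧ character U = c}

variable {X : Type u}

/-- There is a uniform ultrafilter over every infinite set. -/
theorem exists_uniform (hX : ℵ₀ ≤ #X) : ∃ U : Ultrafilter X, IsUniform U := by
  classical
  let F : Filter X :=
    { sets := {A | #(Aᶜ : Set X) < #X}
      univ_sets := by
        show #(univᶜ : Set X) < #X
        rw [compl_univ, Cardinal.mk_emptyCollection]
        exact Cardinal.aleph0_pos.trans_le hX
      sets_of_superset := fun {A B} hA hAB =>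
        (Cardinal.mk_le_mk_of_subset (compl_subset_compl.2 hAB)).trans_lt hA
      inter_sets := fun {A B} hA hB => by
        show #((A ∩ B)ᶜ : Set X) < #X
        rw [compl_inter]
        exact (Cardinal.mk_union_le _ _).trans_lt (Cardinal.add_lt_of_lt hX hA hB) }
  have hne : F.NeBot := by
    rw [Filter.neBot_iff]
    intro h
    have : (∅ : Set X) ∈ F := by rw [h]; exact Filter.mem_bot
    have h2 : #((∅ : Set X)ᶜ : Set X) < #X := this
    rw [compl_empty, Cardinal.mk_univ] at h2
    exact lt_irrefl _ h2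
  refine ⟨Ultrafilter.of F, fun A hA => ?_⟩
  refine le_antisymm (Cardinal.mk_set_le A) ?_
  by_contra hcon
  push Not at hcon
  have h1 : Aᶜ ∈ F := by
    show #(Aᶜᶜ : Set X) < #X
    rwa [compl_compl]
  have h2 : Aᶜ ∈ Ultrafilter.of F := Ultrafilter.of_le F h1
  exact (Ultrafilter.compl_notMem_iff.2 hA) h2

/-- The ultrafilter number is attained. -/
theorem exists_character_eq (hX : ℵ₀ ≤ #X) :
    ∃ U : Ultrafilter X, IsUniform U ∧ character U = ultrafilterNumber X := by
  obtain ⟨V, hV⟩ := exists_uniform hX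
  have hne : {c : Cardinal.{u} | ∃ U : Ultrafilter X, IsUniform U ∧ character U = c}.Nonempty :=
    ⟨_, V, hV, rfl⟩
  exact csInf_mem hne

/-- Let `λ = #X = ℵ_ α` and suppose that `𝔲_λ` is singular. Then `cf(𝔲_λ)` is uncountable and
`𝔲_λ ≥ ℵ_ (α + ω₁)`. Moreover every uniform ultrafilter `U` over `X` with `Ch(U) = 𝔲_λ` has fewer
than `cf(𝔲_λ)` members whose intersection is not in `U`, and the ultrapower by `U` of the power
set of a set of size `cf(𝔲_λ)` has more than `𝔲_λ` elements. -/
theorem result (X : Type u) (α : Ordinal.{u}) (hα : #X = ℵ_ α)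
    (hs : ¬ (ultrafilterNumber X).IsRegular) :
    ℵ₀ < (ultrafilterNumber X).ord.cof ∧ ℵ_ (α + ω₁) ≤ ultrafilterNumber X ∧
      ∀ U : Ultrafilter X, IsUniform U → character U = ultrafilterNumber X →
        (∃ 𝒮 : Set (Set X), (∀ A ∈ 𝒮, A ∈ U) ∧ #𝒮 < (ultrafilterNumber X).ord.cof ∧
          ⋂₀ 𝒮 ∉ U) ∧
        ∀ T : Type u, #T = (ultrafilterNumber X).ord.cof →
          ultrafilterNumber X < #((U : Filter X).Germ (Set T)) := by
  have hX : ℵ₀ ≤ #X := by rw [hα]; exact Cardinal.aleph0_le_aleph α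
  obtain ⟨V, hV, hVc⟩ := exists_character_eq hX
  have hlt := mk_lt_character hX hV
  have hinf := aleph0_le_character hX hV
  have hcof := aleph0_lt_cof V hinf
  rw [hVc] at hlt hinf hcof
  refine ⟨hcof, ?_, ?_⟩
  · by_contra hcon
    push Not at hcon
    obtain ⟨β, hβ⟩ := Cardinal.mem_range_aleph_iff.2 hinf
    rw [← hβ] at hlt hcon hcof hs
    rw [hα] at hlt
    have h1 : α < β := Cardinal.aleph_lt_aleph.1 hlt
    have h2 : β < α + ω₁ := Cardinal.aleph_lt_aleph.1 hcon
    obtain ⟨γ, rfl⟩ : ∃ γ, β = α + γ := ⟨β - α, (Ordinal.add_sub_cancel_of_le h1.le).symm⟩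
    have hγ : γ < ω₁ := (add_lt_add_iff_left α).1 h2
    rcases Ordinal.zero_or_succ_or_isSuccLimit γ with h0 | ⟨δ, hδ⟩ | hlim
    · rw [h0, add_zero] at h1
      exact lt_irrefl _ h1
    · apply hs
      rw [← hδ, Order.succ_eq_add_one, ← add_assoc]
      exact Cardinal.isRegular_aleph_add_one _
    · have hlim' : IsSuccLimit (α + γ) := Ordinal.isSuccLimit_add α hlim
      rw [Cardinal.ord_aleph, Ordinal.cof_omega hlim', Ordinal.cof_add α hlim.ne_bot,
        Ordinal.cof_eq_aleph0_of_isSuccLimit hlim hγ] at hcof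
      exact lt_irrefl _ hcof
  · intro U hU hUc
    have hUinf := aleph0_le_character hX hU
    refine ⟨?_, ?_⟩
    · have := exists_small_inter U hUinf
      rwa [hUc] at this
    · intro T hT
      have := character_lt_germ U hUinf T (by rw [hUc]; exact hT)
      rwa [hUc] at this

end Pool.Agent.Results.MP_9fc97b_lc.SingularBound
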