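import Mathlib
import Pool.Agent.Lib.MP_9fc97b_un.NG3

/-!
# MP_9fc97b_lc: the ultrafilter number of a strong limit singular cardinal can be singular

The definitions used in the statement:

* `Pool.P2.IsSupercompact`, `Pool.P2.IsNormalFine` in `Pool/Agent/Lib/MP_ad72f3_p2/Sc.lean`;
* `Pool.UL.Singular`, `Pool.UL.PowLe`, `Pool.UL.StrongLimit`, `Pool.UL.PowIs`, `Pool.UL.UnifUF`,
  `Pool.UL.HasBase`, `Pool.UL.UNumIs` in `Pool/Agent/Lib/MP_9fc97b_ut/Pat.lean`;
* `Pool.PC.ZFCModel`, `Pool.PC.FunOn`, `Pool.PC.InfCard` in `Pool/Agent/Lib/MP_ad72f3_pc/Pat.lean`;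
* `Pool.MP_3ade05_lc.ZFModel`, `Pool.MP_3ade05_lc.Fml`, `Pool.MP_3ade05_lc.Sat` (the axioms of
  `ZF`, with the first-order schemata) in `Pool/Agent/Lib/MP_3ade05_lc/Defs.lean`.
-/

set_option autoImplicit false

open Cardinal Order

namespace Pool.Agent.Results.MP_9fc97b_lc.SingularUltrafilterNumber

open Pool.PC Pool.P2 Pool.UL

/-- If `κ` is `ℶ_{κ⁺}`-supercompact, then there is a countable transitive model `V` of `ZFC` with
a strong limit singular cardinal `lam` of `V` such that the ultrafilter number of `lam` in `V` is a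
singular cardinal `u` of `V`; moreover `u` is `2 ^ lam` in `V`. -/
theorem result (κ : Cardinal.{0}) (hκ : IsSupercompact κ (ℶ_ (succ κ).ord)) :
    ∃ V : Set ZFSet.{0}, V.Countable ∧ (∀ x ∈ V, ∀ y ∈ x, y ∈ V) ∧ ZFCModel V ∧
      ∃ lam u : ZFSet.{0}, StrongLimit V lam ∧ Singular V lam ∧ UNumIs V lam u ∧ Singular V u ∧
        PowIs V lam u := by
  obtain ⟨V, h1, h2, h3, lam, u, h4, h5, h6, h7, h8⟩ := Pool.UL.main (κ := κ) hκ
  exact ⟨V, h1, h2, h3, lam, u, h4, h5, h6, h8, h7⟩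

end Pool.Agent.Results.MP_9fc97b_lc.SingularUltrafilterNumber
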